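import Pool.Agent.Helper21.D2.Stmts
import Pool.Agent.Helper82.AHS.Nd
import Pool.Agent.Helper25.MT9.HIR

/-!
Row IRH of project D2: irreducibility.
-/

set_option autoImplicit false

namespace Pool.Agent.Helper21.TH

open Matrix Pool.Agent.Helper82.AHS
open MT (h25_aev h25_dia h25_cnj h25_sub h25_spn h25_com h25_bas LIrr)

variable {r : ℕ} {V : HS r} {w : ℤ} {Q : Matrix (Fin r) (Fin r) ℚ}

theorem irh_itp (p : Fin r → ℤ) (g : ℤ → ℂ) :
    ∃ P : Polynomial ℂ, ∀ j, P.eval (p j : ℂ) = g (p j) := by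
  refine ⟨Lagrange.interpolate (Finset.univ.image p) (fun k : ℤ => (k : ℂ)) g, fun j => ?_⟩
  have h1 : Set.InjOn (fun k : ℤ => (k : ℂ)) (Finset.univ.image p : Finset ℤ) := by
    intro a _ b _ hab
    exact Int.cast_injective hab
  have h2 : p j ∈ Finset.univ.image p := Finset.mem_image_of_mem _ (Finset.mem_univ _)
  exact Lagrange.eval_interpolate_at_node g h1 h2

/-- the Weil operator is a polynomial in `D` -/
theorem irh_weil (hw : ∀ i, V.p i + V.q i = w) : ∃ P : Polynomial ℂ,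
    Polynomial.aeval V.D P = (V.P : Matrix (Fin r) (Fin r) ℂ) *
      diagonal (fun j => Complex.I ^ (V.p j - V.q j)) *
        ((V.P⁻¹ : GL (Fin r) ℂ) : Matrix (Fin r) (Fin r) ℂ) := by
  obtain ⟨P, hP⟩ := irh_itp V.p (fun k => Complex.I ^ (2 * k - w))
  refine ⟨P, ?_⟩
  unfold HS.D
  rw [h25_cnj _ _ (gl_mul_inv _) (gl_inv_mul _)]
  congr 3
  funext j
  rw [hP]
  congr 1
  have := hw j
  omega

/-- positivity on rational vectors -/
theorem irh_pos (hQ : V.Pol Q) (x : Fin r → ℚ)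
    (h0 : (((V.P : Matrix (Fin r) (Fin r) ℂ) * diagonal (fun j => Complex.I ^ (V.p j - V.q j)) *
        ((V.P⁻¹ : GL (Fin r) ℂ) : Matrix (Fin r) (Fin r) ℂ)) *ᵥ (fun i => ((x i : ℚ) : ℂ))) ⬝ᵥ
      (Q.map (algebraMap ℚ ℂ) *ᵥ (fun i => ((x i : ℚ) : ℂ))) = 0) : x = 0 := by
  obtain ⟨B, hB⟩ : ∃ B : Matrix (Fin r) (Fin r) ℂ, B = (V.P : Matrix (Fin r) (Fin r) ℂ) := ⟨_, rfl⟩
  obtain ⟨Bi, hBi⟩ : ∃ Bi : Matrix (Fin r) (Fin r) ℂ,
    Bi = ((V.P⁻¹ : GL (Fin r) ℂ) : Matrix (Fin r) (Fin r) ℂ) := ⟨_, rfl⟩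
  have hBBi : B * Bi = 1 := by rw [hB, hBi]; exact gl_mul_inv _
  obtain ⟨X, hX⟩ : ∃ X : Fin r → ℂ, X = fun i => ((x i : ℚ) : ℂ) := ⟨_, rfl⟩
  obtain ⟨u, hu⟩ : ∃ u : Fin r → ℂ, u = Bi *ᵥ X := ⟨_, rfl⟩
  have hBu : B *ᵥ u = X := by rw [hu, Matrix.mulVec_mulVec, hBBi, Matrix.one_mulVec]
  have hreal : starRingEnd ℂ ∘ X = X := by
    funext i
    rw [hX, Function.comp_apply, map_ratCast]
  obtain ⟨c, -, hc, hcM⟩ := MM_form hQ u
  have key : Star.star u ⬝ᵥ (MM V Q *ᵥ u) =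
      ((B * diagonal (fun j => Complex.I ^ (V.p j - V.q j)) * Bi) *ᵥ X) ⬝ᵥ
        (Q.map (algebraMap ℚ ℂ) *ᵥ X) := by
    have e1 : (B * diagonal (fun j => Complex.I ^ (V.p j - V.q j)) * Bi) *ᵥ X =
        B *ᵥ (diagonal (fun j => Complex.I ^ (V.p j - V.q j)) *ᵥ u) := by
      rw [hu, Matrix.mulVec_mulVec, Matrix.mulVec_mulVec, Matrix.mul_assoc]
    have e2 : X = B.map (starRingEnd ℂ) *ᵥ Star.star u := by
      rw [← hreal, ← hBu]
      funext i
      simp only [Function.comp_apply, mulVec, dotProduct, map_sum, map_mul, Matrix.map_apply,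
        Pi.star_apply]
      rfl
    have e3 : ∀ (A : Matrix (Fin r) (Fin r) ℂ) (a z : Fin r → ℂ),
        a ⬝ᵥ (Aᵀ *ᵥ z) = (A *ᵥ a) ⬝ᵥ z := by
      intro A a z
      rw [Matrix.dotProduct_mulVec, Matrix.vecMul_transpose]
    have e4 : RR V Q *ᵥ Star.star u = Bᵀ *ᵥ (Q.map (algebraMap ℚ ℂ) *ᵥ X) := by
      unfold RR
      rw [← hB, ← Matrix.mulVec_mulVec, ← Matrix.mulVec_mulVec, ← e2]
    rw [e1]
    unfold MM
    rw [e3, dotProduct_comm, ← Matrix.mulVec_mulVec, e4, ← e3 B]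
    have e5 := e3 (diagonal fun i => Complex.I ^ (V.p i - V.q i)) u
      (Bᵀ *ᵥ (Q.map (algebraMap ℚ ℂ) *ᵥ X))
    rw [Matrix.diagonal_transpose] at e5
    exact e5
  rw [hcM] at key
  rw [← hX, ← hB, ← hBi] at h0
  rw [h0] at key
  have hc0 : c = 0 := by exact_mod_cast key
  have hu0 : u = 0 := by
    by_contra hne
    exact (hc hne).ne' hc0
  rw [hu0, Matrix.mulVec_zero] at hBu
  funext i
  have h1 := congrFun hBu i
  rw [hX] at h1
  simp only [Pi.zero_apply] at h1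
  exact_mod_cast h1.symm

theorem irh_sca (hE : EndQ V) (a : Submodule ℚ (Matrix (Fin r) (Fin r) ℚ))
    (hD : V.D ∈ Submodule.span ℂ {B | ∃ A ∈ a, B = A.map (algebraMap ℚ ℂ)})
    (Y : Matrix (Fin r) (Fin r) ℚ) (hY : ∀ A ∈ a, A * Y = Y * A) : ∃ c : ℚ, Y = c • 1 :=
  hE Y (h25_com a Y hY _ hD).symm

theorem irh_stab (a : Submodule ℚ (Matrix (Fin r) (Fin r) ℚ)) (U : Submodule ℚ (Fin r → ℚ))
    (hU : ∀ A ∈ a, ∀ v ∈ U, A.mulVec v ∈ U) (m : ℕ) (B : Matrix (Fin r) (Fin m) ℚ)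
    (hB1 : ∀ y, B.mulVec y ∈ U) (hB2 : ∀ u ∈ U, ∃ y, u = B.mulVec y) :
    ∀ A ∈ a, ∃ A' : Matrix (Fin m) (Fin m) ℚ, A * B = B * A' := by
  intro A hA
  have h1 : ∀ j, ∃ y : Fin m → ℚ, A.mulVec (fun i => B i j) = B.mulVec y := by
    intro j
    apply hB2
    apply hU A hA
    have : (fun i => B i j) = B.mulVec (Pi.single j 1) := by
      rw [Matrix.mulVec_single_one]
      rfl
    rw [this]
    exact hB1 _
  choose y hy using h1
  refine ⟨Matrix.of fun i j => y j i, ?_⟩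
  ext i j
  exact congrFun (hy j) i

theorem irh_irr (hw : ∀ i, V.p i + V.q i = w) (hQ : V.Pol Q) (hdet : Q.det ≠ 0)
    (hsym : Qᵀ = Q ∨ Qᵀ = -Q) (hE : EndQ V) (a : Submodule ℚ (Matrix (Fin r) (Fin r) ℚ))
    (hs : ∀ A ∈ a, ∃ c : ℚ, Aᵀ * Q + Q * A = c • Q)
    (hD : V.D ∈ Submodule.span ℂ {B | ∃ A ∈ a, B = A.map (algebraMap ℚ ℂ)}) : LIrr a := by
  intro U hU
  obtain ⟨m, B, C, hCB, hB1, hB2, -, -⟩ := h25_sub U
  have hst := irh_stab a U hU m B hB1 hB2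
  obtain ⟨β, hβ⟩ : ∃ β : LinearMap.BilinForm ℚ (Fin r → ℚ), β = Matrix.toBilin' Q := ⟨_, rfl⟩
  have hβa : ∀ x y, β x y = x ⬝ᵥ Q *ᵥ y := by
    intro x y
    rw [hβ, Matrix.toBilin'_apply']
  have hψs : ∀ x y, β x y = 0 → β y x = 0 := by
    intro x y hxy
    rw [hβa] at hxy ⊢
    rw [Matrix.dotProduct_mulVec, ← Matrix.mulVec_transpose, dotProduct_comm]
    rcases hsym with h | h
    · rw [h]; exact hxy
    · rw [h, Matrix.neg_mulVec, dotProduct_neg, hxy, neg_zero]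
  have hrefl : β.IsRefl := fun x y hxy => hψs x y hxy
  have hnd : β.Nondegenerate := by
    rw [hβ]
    exact LinearMap.BilinForm.nondegenerate_toBilin'_of_det_ne_zero' Q hdet
  have hdis : Disjoint U (β.orthogonal U) := by
    rw [Submodule.disjoint_def]
    intro x hx hx'
    obtain ⟨y, hy⟩ := hB2 x hx
    apply irh_pos hQ
    obtain ⟨P, hP⟩ := irh_weil (V := V) hw
    obtain ⟨Θ', hΘ'⟩ := h25_spn a B hst _ hD
    have h1 := h25_aev _ _ _ hΘ' P
    rw [← hP]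
    have hX : (fun i => ((x i : ℚ) : ℂ)) = B.map (algebraMap ℚ ℂ) *ᵥ (fun i => ((y i : ℚ) : ℂ)) := by
      funext i
      rw [hy]
      simp [mulVec, dotProduct]
    rw [hX, Matrix.mulVec_mulVec, h1, ← Matrix.mulVec_mulVec, ← hX]
    have h2 : ∀ k, (fun i => B.map (algebraMap ℚ ℂ) i k) ⬝ᵥ
        (Q.map (algebraMap ℚ ℂ) *ᵥ (fun i => ((x i : ℚ) : ℂ))) = 0 := by
      intro k
      have h3 : β (fun i => B i k) x = 0 := by
        rw [LinearMap.BilinForm.mem_orthogonal_iff] at hx'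
        apply hx'
        have : (fun i => B i k) = B.mulVec (Pi.single k 1) := by
          rw [Matrix.mulVec_single_one]
          rfl
        rw [this]
        exact hB1 _
      rw [hβa] at h3
      have h4 := congrArg (fun t : ℚ => (t : ℂ)) h3
      simp only [dotProduct, mulVec, Rat.cast_sum, Rat.cast_mul, Rat.cast_zero] at h4
      simp only [dotProduct, mulVec, Matrix.map_apply, eq_ratCast]
      exact h4
    have h5 : ∀ z : Fin m → ℂ, (B.map (algebraMap ℚ ℂ) *ᵥ z) ⬝ᵥ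
        (Q.map (algebraMap ℚ ℂ) *ᵥ (fun i => ((x i : ℚ) : ℂ))) = 0 := by
      intro z
      have h6 : (B.map (algebraMap ℚ ℂ) *ᵥ z) = ∑ k, z k • (fun i => B.map (algebraMap ℚ ℂ) i k) := by
        funext i
        simp [mulVec, dotProduct, Finset.sum_apply, mul_comm]
      rw [h6, sum_dotProduct]
      refine Finset.sum_eq_zero fun k _ => ?_
      rw [smul_dotProduct, h2 k, smul_zero]
    exact h5 _
  have hcpl : IsCompl U (β.orthogonal U) :=
    (LinearMap.BilinForm.isCompl_orthogonal_iff_disjoint hrefl).mpr hdis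
  have hV : ∀ A ∈ a, ∀ v ∈ β.orthogonal U, A.mulVec v ∈ β.orthogonal U := by
    intro A hA v hv
    obtain ⟨c, hc⟩ := hs A hA
    rw [LinearMap.BilinForm.mem_orthogonal_iff] at hv ⊢
    intro u hu
    have h1 : β u v = 0 := hv u hu
    have h2 : β (A.mulVec u) v = 0 := hv _ (hU A hA u hu)
    rw [hβa] at h1 h2
    show β u (A.mulVec v) = 0
    rw [hβa]
    have h3 : A.mulVec u ⬝ᵥ Q *ᵥ v + u ⬝ᵥ Q *ᵥ (A *ᵥ v) = c * (u ⬝ᵥ Q *ᵥ v) := by
      have e1 : A.mulVec u ⬝ᵥ Q *ᵥ v = u ⬝ᵥ (Aᵀ * Q) *ᵥ v := by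
        rw [← Matrix.mulVec_mulVec, Matrix.dotProduct_mulVec u, Matrix.vecMul_transpose]
      rw [e1, Matrix.mulVec_mulVec, ← dotProduct_add, ← Matrix.add_mulVec, hc, Matrix.smul_mulVec,
        dotProduct_smul, smul_eq_mul]
    rw [h1, h2, mul_zero, zero_add] at h3
    exact h3
  obtain ⟨π, hπ⟩ : ∃ π : (Fin r → ℚ) →ₗ[ℚ] (Fin r → ℚ), π = U.projection (β.orthogonal U) hcpl :=
    ⟨_, rfl⟩
  have hπ1 : ∀ x ∈ U, π x = x := by
    intro x hx
    rw [hπ]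
    exact Submodule.projection_apply_of_mem_left hcpl hx
  have hπ2 : ∀ x ∈ β.orthogonal U, π x = 0 := by
    intro x hx
    rw [hπ]
    exact Submodule.projection_apply_of_mem_right hcpl hx
  have hπ3 : ∀ x, π x ∈ U := by
    intro x
    rw [hπ]
    exact Submodule.projection_apply_mem hcpl x
  have hcom : ∀ A ∈ a, A * LinearMap.toMatrix' π = LinearMap.toMatrix' π * A := by
    intro A hA
    apply Matrix.toLin'.injective
    apply LinearMap.ext
    intro x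
    rw [Matrix.toLin'_mul, Matrix.toLin'_mul, LinearMap.comp_apply, LinearMap.comp_apply,
      Matrix.toLin'_toMatrix', Matrix.toLin'_apply, Matrix.toLin'_apply]
    obtain ⟨u, hu, v, hv, rfl⟩ := Submodule.mem_sup.mp
      (show x ∈ U ⊔ β.orthogonal U by rw [hcpl.sup_eq_top]; exact Submodule.mem_top)
    rw [map_add, hπ1 u hu, hπ2 v hv, add_zero, Matrix.mulVec_add, map_add, hπ1 _ (hU A hA u hu),
      hπ2 _ (hV A hA v hv), add_zero]
  obtain ⟨c, hc⟩ := irh_sca hE a hD _ hcom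
  have hπc : ∀ x, π x = c • x := by
    intro x
    rw [← Matrix.toLin'_toMatrix' π, hc, Matrix.toLin'_apply, Matrix.smul_mulVec, Matrix.one_mulVec]
  by_cases hU0 : U = ⊥
  · exact Or.inl hU0
  · right
    obtain ⟨u, hu, hu0⟩ := Submodule.exists_mem_ne_zero_of_ne_bot hU0
    have h1 : c = 1 := by
      have h2 : c • u = u := by rw [← hπc, hπ1 u hu]
      have h3 : (c - 1) • u = 0 := by rw [sub_smul, one_smul, h2, sub_self]
      rcases smul_eq_zero.mp h3 with h4 | h4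
      · linarith
      · exact absurd h4 hu0
    rw [Submodule.eq_top_iff']
    intro x
    have h2 := hπ3 x
    rw [hπc, h1, one_smul] at h2
    exact h2

theorem irh_irr' (hI : Irr V) (a : Submodule ℚ (Matrix (Fin r) (Fin r) ℚ))
    (hD : V.D ∈ Submodule.span ℂ {B | ∃ A ∈ a, B = A.map (algebraMap ℚ ℂ)}) : LIrr a := by
  intro U hU
  apply hI
  intro u hu
  generalize V.D = X at hD
  induction hD using Submodule.span_induction with
  | mem x hx =>
    obtain ⟨A, hA, rfl⟩ := hx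
    apply Submodule.subset_span
    refine ⟨A.mulVec u, hU A hA u hu, ?_⟩
    funext i
    simp [mulVec, dotProduct]
  | zero => rw [Matrix.zero_mulVec]; exact Submodule.zero_mem _
  | add x y _ _ hx hy => rw [Matrix.add_mulVec]; exact Submodule.add_mem _ hx hy
  | smul c x _ hx => rw [Matrix.smul_mulVec]; exact Submodule.smul_mem _ c hx

/-- scalars in the case of middle Hodge number one -/
theorem irh_sca' (hOI : MT.ST_OI2) (hM : Mid V w) (hdet : Q.det ≠ 0) (hsym : Qᵀ = Q)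
    (hDQ : V.Dᵀ * Q.map (algebraMap ℚ ℂ) + Q.map (algebraMap ℚ ℂ) * V.D =
        (w : ℂ) • Q.map (algebraMap ℚ ℂ))
    (a : Submodule ℚ (Matrix (Fin r) (Fin r) ℚ)) (hirr : LIrr a)
    (hs : ∀ A ∈ a, ∃ c : ℚ, Aᵀ * Q + Q * A = c • Q)
    (hΘ : V.D ∈ Submodule.span ℂ {B | ∃ A ∈ a, B = A.map (algebraMap ℚ ℂ)})
    (Y : Matrix (Fin r) (Fin r) ℚ) (hY : ∀ A ∈ a, A * Y = Y * A) : ∃ c : ℚ, Y = c • 1 := by
  obtain ⟨B, hB⟩ : ∃ B : Matrix (Fin r) (Fin r) ℂ, B = (V.P : Matrix (Fin r) (Fin r) ℂ) := ⟨_, rfl⟩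
  obtain ⟨Bi, hBi⟩ : ∃ Bi : Matrix (Fin r) (Fin r) ℂ,
    Bi = ((V.P⁻¹ : GL (Fin r) ℂ) : Matrix (Fin r) (Fin r) ℂ) := ⟨_, rfl⟩
  have hBBi : B * Bi = 1 := by
    rw [hB, hBi]; exact gl_mul_inv _
  have hBiB : Bi * B = 1 := by
    rw [hB, hBi]; exact gl_inv_mul _
  obtain ⟨D, hD⟩ : ∃ D : Matrix (Fin r) (Fin r) ℂ, D = diagonal (fun j => (V.p j : ℂ)) := ⟨_, rfl⟩
  obtain ⟨j₀, hj₀⟩ := Finset.card_eq_one.mp hM
  have hj1 : ∀ j, 2 * V.p j = w ↔ j = j₀ := by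
    intro j
    have h1 := Finset.ext_iff.mp hj₀ j
    rw [Finset.mem_filter, Finset.mem_singleton] at h1
    exact ⟨fun h2 => h1.mp ⟨Finset.mem_univ _, h2⟩, fun h2 => (h1.mpr h2).2⟩
  have hw0 : 2 * V.p j₀ = w := (hj1 j₀).mpr rfl
  have hr0 : (w : ℂ) = 2 * (V.p j₀ : ℂ) := by
    rw [← hw0]
    push_cast
    ring
  have hVD : V.D = B * D * Bi := by
    rw [hB, hBi, hD]
    rfl
  rw [hr0, hVD] at hDQ
  rw [hVD] at hΘ
  have hsub : B * D * Bi - (V.p j₀ : ℂ) • (1 : Matrix (Fin r) (Fin r) ℂ) =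
      B * diagonal (fun j => (V.p j : ℂ) - (V.p j₀ : ℂ)) * Bi := by
    have e1 : diagonal (fun j => (V.p j : ℂ) - (V.p j₀ : ℂ)) = D - (V.p j₀ : ℂ) • 1 := by
      rw [hD, Matrix.smul_one_eq_diagonal, Matrix.diagonal_sub]
    rw [e1, Matrix.mul_sub, Matrix.sub_mul, Matrix.mul_smul, Matrix.mul_one, Matrix.smul_mul, hBBi]
  have hker : ∀ v : Fin r → ℂ, (B * D * Bi).mulVec v = (V.p j₀ : ℂ) • v ↔
      ∀ j, ((V.p j : ℂ) - (V.p j₀ : ℂ)) * Bi.mulVec v j = 0 := by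
    intro v
    have e1 : (B * D * Bi).mulVec v = (V.p j₀ : ℂ) • v ↔
        (B * diagonal (fun j => (V.p j : ℂ) - (V.p j₀ : ℂ)) * Bi).mulVec v = 0 := by
      rw [← hsub, Matrix.sub_mulVec, Matrix.smul_mulVec, Matrix.one_mulVec, sub_eq_zero]
    rw [e1]
    constructor
    · intro h1 j
      have h2 := congrArg (fun x => Bi.mulVec x) h1
      simp only [Matrix.mulVec_zero, Matrix.mulVec_mulVec] at h2
      rw [← Matrix.mul_assoc, ← Matrix.mul_assoc, hBiB, Matrix.one_mul, ← Matrix.mulVec_mulVec] at h2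
      have h3 := congrFun h2 j
      rw [Matrix.mulVec_diagonal] at h3
      exact h3
    · intro h1
      rw [Matrix.mul_assoc, ← Matrix.mulVec_mulVec, ← Matrix.mulVec_mulVec]
      have h2 : (diagonal (fun j => (V.p j : ℂ) - (V.p j₀ : ℂ))).mulVec (Bi.mulVec v) = 0 := by
        funext j
        rw [Matrix.mulVec_diagonal]
        exact h1 j
      rw [h2, Matrix.mulVec_zero]
  refine hOI ℚ ℂ r Q a (B * D * Bi) (V.p j₀ : ℂ) (B.mulVec (Pi.single j₀ 1)) hdet hsym hs hirr hΘ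
    hDQ ?_ ?_ ?_ ?_ Y hY
  · intro h1
    have h2 := congrArg (fun x => Bi.mulVec x) h1
    simp only [Matrix.mulVec_zero, Matrix.mulVec_mulVec] at h2
    rw [hBiB, Matrix.one_mulVec] at h2
    have h3 := congrFun h2 j₀
    simp at h3
  · rw [hker]
    intro j
    rw [Matrix.mulVec_mulVec, hBiB, Matrix.one_mulVec]
    by_cases hj : j = j₀
    · rw [hj, sub_self, zero_mul]
    · rw [Pi.single_eq_of_ne hj, mul_zero]
  · intro v hv
    rw [hker] at hv
    refine ⟨Bi.mulVec v j₀, ?_⟩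
    have h1 : Bi.mulVec v = Bi.mulVec v j₀ • Pi.single j₀ (1 : ℂ) := by
      funext j
      by_cases hj : j = j₀
      · rw [hj, Pi.smul_apply, Pi.single_eq_same, smul_eq_mul, mul_one]
      · rw [Pi.smul_apply, Pi.single_eq_of_ne hj, smul_zero]
        rcases mul_eq_zero.mp (hv j) with h2 | h2
        · exfalso
          apply hj
          rw [← hj1]
          have h3 : V.p j = V.p j₀ := by
            exact_mod_cast sub_eq_zero.mp h2
          rw [h3, hw0]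
        · exact h2
    rw [← Matrix.mulVec_smul, ← h1, Matrix.mulVec_mulVec, hBBi, Matrix.one_mulVec]
  · intro v hv
    rw [hker]
    intro j
    rw [hsub, Matrix.mulVec_mulVec] at hv
    have h2 := congrArg (fun x => Bi.mulVec x) hv
    simp only [Matrix.mulVec_zero, Matrix.mulVec_mulVec] at h2
    have e1 : ∀ E : Matrix (Fin r) (Fin r) ℂ, Bi * (B * E * Bi * (B * E * Bi)) =
        (Bi * B) * E * ((Bi * B) * (E * Bi)) := by
      intro E
      simp only [Matrix.mul_assoc]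
    rw [e1, hBiB, Matrix.one_mul, Matrix.one_mul, ← Matrix.mulVec_mulVec, ← Matrix.mulVec_mulVec] at h2
    have h3 := congrFun h2 j
    rw [Matrix.mulVec_diagonal, Matrix.mulVec_diagonal, Pi.zero_apply] at h3
    rcases mul_eq_zero.mp h3 with h4 | h4
    · rw [h4, zero_mul]
    · exact h4

/-- Row IRH -/
theorem st_IRH (sym : ST_SYM) (hOI2 : MT.ST_OI2) : ST_IRH := by
  intro r V w Q a hw hQ hA hs hD
  obtain ⟨hdet, hev, hodd, hDQ⟩ := sym r V w Q hw hQ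
  have hsym : Qᵀ = Q ∨ Qᵀ = -Q := by
    rcases Int.even_or_odd w with h | h
    · exact Or.inl (hev h)
    · exact Or.inr (hodd h)
  rcases hA with hE | ⟨hM, hI⟩
  · exact ⟨irh_irr hw hQ hdet hsym hE a hs hD, irh_sca hE a hD⟩
  · have h1 := irh_irr' hI a hD
    have hwe : Even w := by
      obtain ⟨j₀, hj₀⟩ := Finset.card_eq_one.mp hM
      have h2 := Finset.ext_iff.mp hj₀ j₀
      rw [Finset.mem_filter, Finset.mem_singleton] at h2
      have h3 : 2 * V.p j₀ = w := (h2.mpr rfl).2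
      exact ⟨V.p j₀, by omega⟩
    exact ⟨h1, irh_sca' hOI2 hM hdet (hev hwe) hDQ a h1 hs hD⟩

end Pool.Agent.Helper21.TH
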